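import Pool.Agent.H17.TD.Wp
import Pool.Agent.H5.AB.Fin

/-!
# Hereditary analytic classes in all bounded arities
-/

set_option autoImplicit false

namespace Pool.H17.TD

open Pool.H22.VC (Col Wild IsoOn)
open Pool.H62.VT (Str)
open Function Set Pool.H17.HS Pool.H22.VN Pool.H5.AB

variable {r : ℕ} {a : ℕ → ℕ}

theorem noPerf_of {K A : Set (Str a)} (hA : A ⊆ K)
    (hp : ¬ ∃ P : Set (Str a), P.Nonempty ∧ Perfect P ∧
      P ⊆ K ∧ ∀ x ∈ P, ∀ y ∈ P, (∃ σ, IsoV σ x y) → x = y) : Pool.H62.VT.NoPerf A := by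
  intro k φ hφ hK h
  obtain ⟨P, hne, hP, hsub, hiso⟩ := Pool.H22.VC.perfect_of_family a k φ hφ h
  refine hp ⟨P, hne, hP, fun x hx => ?_, hiso⟩
  obtain ⟨s, rfl⟩ := hsub x hx
  exact hA (hK s)

/-- The dichotomy for analytic sets all of whose members lie hereditarily in the class `K` or have few
substructures; `r` bounds the arities. -/
theorem final_her (har : ∀ n, a n ≤ r) (hr : 2 ≤ r)
    (hff : ∀ M : Str a, ¬ Wild (cod r M) univ → HasFF M)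
    (K A : Set (Str a)) (hA : A ⊆ K) (hK : MeasureTheory.AnalyticSet A)
    (hx : ∀ x ∈ A, ∃ F : Finset ℕ,
      (¬ ∃ P : Set (Str a), P.Nonempty ∧ Perfect P ∧
        (∀ y ∈ P, ∃ f : ℕ → ℕ, Injective f ∧ (∀ i ∈ F, i ∈ range f) ∧ y = sub x f) ∧
        ∀ y ∈ P, ∀ z ∈ P, (∃ σ, IsoV σ y z) → y = z) ∨
      ∀ f : ℕ → ℕ, Injective f → (∀ i ∈ F, i ∈ range f) → sub x f ∈ K) :
    (∃ C : Set (Str a), C.Countable ∧ ∀ x ∈ A, ∃ c ∈ C, ∃ σ, IsoV σ x c) ∨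
      (∃ P : Set (Str a), P.Nonempty ∧ Perfect P ∧ P ⊆ K ∧
        ∀ x ∈ P, ∀ y ∈ P, (∃ σ, IsoV σ x y) → x = y) := by
  by_cases hp : ∃ P : Set (Str a), P.Nonempty ∧ Perfect P ∧ P ⊆ K ∧
        ∀ x ∈ P, ∀ y ∈ P, (∃ σ, IsoV σ x y) → x = y
  · exact Or.inr hp
  · left
    have hw : ∀ M ∈ A, ¬ Wild (cod r M) univ := by
      intro x hxA hw
      obtain ⟨F, hF | hF⟩ := hx x hxA
      · exact hF (wild_perf x hw F)
      · obtain ⟨P, h1, h2, h3, h4⟩ := wild_perf x hw F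
        refine hp ⟨P, h1, h2, fun y hy => ?_, h4⟩
        obtain ⟨f, hf1, hf2, rfl⟩ := h3 y hy
        exact hF f hf1 hf2
    exact ff_countable har hr A hK (noPerf_of hA hp) hw fun M hM => hff M (hw M hM)

end Pool.H17.TD
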