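import Pool.Agent.H17.HS.Enm
import Pool.Agent.H17.HS.WPerf
import Pool.Agent.H22.VN.Cel

/-!
# A wild structure has a perfect set of pairwise non-isomorphic substructures
-/

set_option autoImplicit false

namespace Pool.H17.TD

open Pool.H22.VC (Col Wild IsoOn)
open Pool.H62.VT (Str)
open Function Set Pool.H17.HS Pool.H22.VN

variable {r : ℕ} {K : Type} {N : Col r K ℕ} {a : ℕ → ℕ}

/-- `g` is an isomorphism of the substructures of `N` on `X` and `Y` -/
def IsoG (N : Col r K ℕ) (g : ℕ → ℕ) (X Y : Set ℕ) : Prop :=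
  BijOn g X Y ∧ ∀ t : Fin r → ℕ, (∀ i, t i ∈ X) → N (fun i => g (t i)) = N t

private theorem wild_fun (A : Finset ℕ) (Ω : (ℕ → Bool) → Set ℕ)
    (h : ∀ s s', IsoOn N A (Ω s) (Ω s') → s = s') :
    ∀ (s s' : ℕ → Bool) (g : ℕ → ℕ), IsoG N g (Ω s) (Ω s') → (∀ x ∈ A, g x = x) → s = s' := by
  intro s s' g hg hA
  refine h s s' ⟨hg.1.equiv g, fun x hx => hA x hx, fun t => ?_⟩
  exact hg.2 (fun i => (t i : ℕ)) fun i => (t i).2

theorem wild_add (h : Wild N univ) (F : Finset ℕ) :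
    ∃ (A : Finset ℕ) (Ω : (ℕ → Bool) → Set ℕ), F ⊆ A ∧
      (∀ s, ∀ x ∈ A, x ∈ Ω s) ∧ (∀ s, (Ω s).Infinite) ∧
      (∀ x : ℕ, IsClopen {s : ℕ → Bool | x ∈ Ω s}) ∧
      ∀ (s s' : ℕ → Bool) (g : ℕ → ℕ), IsoG N g (Ω s) (Ω s') → (∀ x ∈ A, g x = x) → s = s' := by
  classical
  obtain ⟨A₀, Ω₀, hA, -, hinf, hclop, hiso0⟩ := h
  have hiso := wild_fun A₀ Ω₀ hiso0
  obtain ⟨z0, hz0⟩ : ∃ z0 : ℕ → Bool, z0 = fun _ => false := ⟨_, rfl⟩
  -- a neighbourhood of the zero sequence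
  have hopen : IsOpen {s : ℕ → Bool | ∀ x ∈ F, (x ∈ Ω₀ s ↔ x ∈ Ω₀ z0)} := by
    have e : {s : ℕ → Bool | ∀ x ∈ F, (x ∈ Ω₀ s ↔ x ∈ Ω₀ z0)} =
        ⋂ x ∈ F, {s : ℕ → Bool | (x ∈ Ω₀ s ↔ x ∈ Ω₀ z0)} := by
      ext s; simp
    rw [e]
    refine isOpen_biInter_finset fun x _ => ?_
    by_cases hx : x ∈ Ω₀ z0
    · have e2 : {s : ℕ → Bool | (x ∈ Ω₀ s ↔ x ∈ Ω₀ z0)} = {s : ℕ → Bool | x ∈ Ω₀ s} := by
        ext s; simp [hx]
      rw [e2]; exact (hclop x).isOpen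
    · have e2 : {s : ℕ → Bool | (x ∈ Ω₀ s ↔ x ∈ Ω₀ z0)} = {s : ℕ → Bool | x ∈ Ω₀ s}ᶜ := by
        ext s; simp [hx]
      rw [e2]; exact (hclop x).compl.isOpen
  obtain ⟨I, u, hu, hIu⟩ := isOpen_pi_iff.1 hopen z0 (fun x _ => Iff.rfl)
  obtain ⟨n, hn⟩ : ∃ n : ℕ, ∀ i ∈ I, i < n :=
    ⟨I.sup id + 1, fun i hi => Nat.lt_succ_of_le (Finset.le_sup (f := id) hi)⟩
  have hU : ∀ s : ℕ → Bool, (∀ i < n, s i = false) → ∀ x ∈ F, (x ∈ Ω₀ s ↔ x ∈ Ω₀ z0) := by
    intro s hs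
    have : s ∈ (I : Set ℕ).pi u := by
      intro i hi
      have h1 := (hu i hi).2
      rw [hs i (hn i hi)]
      rw [hz0] at h1
      exact h1
    exact hIu this
  obtain ⟨τ, hτ⟩ : ∃ τ : (ℕ → Bool) → (ℕ → Bool), τ = fun s i => if i < n then false else s (i - n) :=
    ⟨_, rfl⟩
  have hτc : Continuous τ := by
    rw [hτ]
    refine continuous_pi fun i => ?_
    by_cases hi : i < n
    · simp only [hi, if_true]; exact continuous_const
    · simp only [hi, if_false]; exact continuous_apply _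
  have hτ0 : ∀ s, ∀ x ∈ F, (x ∈ Ω₀ (τ s) ↔ x ∈ Ω₀ z0) := by
    intro s
    apply hU
    intro i hi
    rw [hτ]; simp [hi]
  refine ⟨A₀ ∪ F, fun s => Ω₀ (τ s) ∪ (F : Set ℕ), Finset.subset_union_right, ?_, ?_, ?_, ?_⟩
  · intro s x hx
    rw [Finset.mem_union] at hx
    rcases hx with hx | hx
    · exact Or.inl (hA _ x hx)
    · exact Or.inr hx
  · intro s
    exact (hinf (τ s)).mono subset_union_left
  · intro x
    by_cases hx : x ∈ F
    · have e : {s : ℕ → Bool | x ∈ Ω₀ (τ s) ∪ (F : Set ℕ)} = univ := by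
        ext s; simp [hx]
      rw [e]; exact isClopen_univ
    · have e : {s : ℕ → Bool | x ∈ Ω₀ (τ s) ∪ (F : Set ℕ)} = τ ⁻¹' {s : ℕ → Bool | x ∈ Ω₀ s} := by
        ext s; simp [hx]
      rw [e]; exact (hclop x).preimage hτc
  · intro s s' g hg hfix
    have hfixF : ∀ x ∈ F, g x = x := fun x hx => hfix x (Finset.mem_union_right _ hx)
    have hiso' : IsoG N g (Ω₀ (τ s)) (Ω₀ (τ s')) := by
      refine ⟨⟨?_, ?_, ?_⟩, ?_⟩
      · intro x hx
        rcases hg.1.mapsTo (Or.inl hx : x ∈ Ω₀ (τ s) ∪ (F : Set ℕ)) with h1 | h1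
        · exact h1
        · have h2 : g (g x) = g x := hfixF _ h1
          have h3 : g x = x := hg.1.injOn (Or.inr h1 : g x ∈ Ω₀ (τ s) ∪ (F : Set ℕ))
            (Or.inl hx : x ∈ Ω₀ (τ s) ∪ (F : Set ℕ)) h2
          rw [h3] at h1 ⊢
          exact (hτ0 s' x h1).2 ((hτ0 s x h1).1 hx)
      · exact hg.1.injOn.mono subset_union_left
      · intro y hy
        obtain ⟨x, hx, hxy⟩ := hg.1.surjOn (Or.inl hy : y ∈ Ω₀ (τ s') ∪ (F : Set ℕ))
        rcases hx with hx | hx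
        · exact ⟨x, hx, hxy⟩
        · have h1 : g x = x := hfixF x hx
          rw [h1] at hxy
          subst hxy
          exact ⟨x, (hτ0 s x hx).2 ((hτ0 s' x hx).1 hy), h1⟩
      · intro t ht
        exact hg.2 t fun i => Or.inl (ht i)
    have h1 := hiso (τ s) (τ s') g hiso' (fun x hx => hfix x (Finset.mem_union_left _ hx))
    funext i
    have h2 := congrFun h1 (i + n)
    rw [hτ] at h2
    simpa using h2

/-- A Cantor family of substructures gives a perfect set of pairwise non-isomorphic substructures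
containing `F`. -/
theorem wild_perf (M : Str a) (hw : Wild (cod r M) univ) (F : Finset ℕ) :
    ∃ P : Set (Str a), P.Nonempty ∧ Perfect P ∧
      (∀ y ∈ P, ∃ f : ℕ → ℕ, Injective f ∧ (∀ x ∈ F, x ∈ range f) ∧ y = sub M f) ∧
      ∀ x ∈ P, ∀ y ∈ P, (∃ σ, IsoV σ x y) → x = y := by
  obtain ⟨A, Ω, hFA, h1, h2, h3, h4⟩ := wild_add hw F
  obtain ⟨f, hf1, hf2, hf3, hf4, hf5⟩ := enm A Ω h1 h2 h3
  obtain ⟨P, hP1, hP2, hP3, hP4⟩ := Pool.H22.VC.perfect_of_family a A.card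
    (fun s => sub M (f s)) (continuous_pi fun n => continuous_pi fun t => sub_cont M hf1 n t) (by
      rintro s s' ⟨σ, hσ1, hσ2⟩
      have hg : ∀ i, f s' (σ (invFun (f s) (f s i))) = f s' (σ i) := fun i => by
        rw [leftInverse_invFun (hf2 s) i]
      refine h4 s s' (fun x => f s' (σ (invFun (f s) x))) ⟨⟨?_, ?_, ?_⟩, ?_⟩ fun x hx => ?_
      · rw [← hf3, ← hf3]
        rintro _ ⟨i, rfl⟩
        show f s' (σ (invFun (f s) (f s i))) ∈ _
        rw [hg]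
        exact mem_range_self _
      · rw [← hf3]
        rintro _ ⟨i, rfl⟩ _ ⟨j, rfl⟩ hij
        simp only [hg] at hij
        rw [σ.injective (hf2 s' hij)]
      · rw [← hf3, ← hf3]
        rintro _ ⟨j, rfl⟩
        refine ⟨f s (σ.symm j), mem_range_self _, ?_⟩
        show f s' (σ (invFun (f s) (f s (σ.symm j)))) = _
        rw [hg, Equiv.apply_symm_apply]
      · rw [← hf3]
        intro t ht
        choose u hu using ht
        funext n v
        show M n (fun i => f s' (σ (invFun (f s) (t (v i))))) = M n (fun i => t (v i))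
        have e1 : (fun i => f s' (σ (invFun (f s) (t (v i))))) = fun i => f s' (σ (u (v i))) := by
          funext i
          rw [← hu, hg]
        have e2 : (fun i => t (v i)) = fun i => f s (u (v i)) := by
          funext i
          rw [hu]
        rw [e1, e2]
        exact hσ2 n (fun i => u (v i))
      · obtain ⟨i, hi1, hi2⟩ := hf5 s x hx
        show f s' (σ (invFun (f s) x)) = x
        rw [← hi2, hg, hσ1 i hi1]
        exact hf4 s' s i hi1)
  refine ⟨P, hP1, hP2, fun y hy => ?_, hP4⟩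
  obtain ⟨s, rfl⟩ := hP3 y hy
  refine ⟨f s, hf2 s, fun x hx => ?_, rfl⟩
  rw [hf3]
  exact h1 s x (hFA hx)

end Pool.H17.TD
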