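import Pool.Agent.H17.TC.L8
import Pool.Agent.H22.VC.StepQ
import Pool.Agent.H5.AB.Fa3

/-!
# Structures of bounded arity which are not wild have free families
-/

set_option autoImplicit false

namespace Pool.H17.TD

open Set Pool.H22.VC Pool.H22.VN Pool.H5.AB Pool.H17.TC

variable {r : ℕ} {a : ℕ → ℕ}

theorem hasFF (har : ∀ n, a n ≤ r) (hr : 2 ≤ r) (M : Pool.H62.VT.Str a)
    (hW : ¬ Wild (cod r M) univ) : HasFF M := by
  have hfin : (range (cod r M)).Finite := by
    by_contra h
    exact hW (stepQ _ h)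
  obtain ⟨n, m, F, h1, h2, h3, h4⟩ := max_families hW hfin
  exact hasFF_of_fam har hr M hfin hW (fun b => (h1 b).1) h2 h3 h4

end Pool.H17.TD
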